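import Pool.Agent.Helper55.UV.Two
import Pool.Agent.Helper21.MH.Hodge4
import Pool.Agent.Helper21.MH.Full4

/-!
Project UV (MP_b8862a_ag): three Hodge numbers `2, h, 2`.
-/

set_option linter.unusedSectionVars false

open Matrix

namespace MH

variable {n : Type*} [Fintype n] [DecidableEq n]
variable {h : Matrix n n ℂ} {E : ℝ → Matrix n n ℂ} {Λ : Finset ℝ}
variable {τ : Matrix n n ℂ →ₗ[ℂ] Matrix n n ℂ} {L : Submodule ℂ (Matrix n n ℂ)}

/-- The only eigenvalues of `h` are `t`, `0`, `-t`. -/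
theorem Dat.two_lev55 (D : Dat τ L h E Λ) {G Gi : Matrix n n ℂ} (hG1 : Gi * G = 1) (hGs : Gᵀ = G)
    (hτ : ∀ x, τ x = Gi * xᵀ * G) {t : ℝ} (ht : 0 < t) (hlev : ∀ ν, ν ≠ t → ν ≠ 0 → ν ≠ -t → E ν = 0)
    (hr : (E t).rank = 2) (h0 : E 0 ≠ 0) (hr0 : (E 0).rank ≤ 2) {X : Matrix n n ℂ} (hX : τ X = -X) : X ∈ L := by
  have hsum : E t + E (-t) + E 0 = 1 := by
    have h2 : (1 : Matrix n n ℂ) = ∑ μ ∈ Λ ∪ {t, -t, 0}, E μ := by
      rw [← D.spec.sum]
      apply Finset.sum_subset Finset.subset_union_left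
      intro μ _ hμ
      exact D.spec.supp μ hμ
    have h3 : ∑ μ ∈ Λ ∪ {t, -t, 0}, E μ = ∑ μ ∈ ({t, -t, 0} : Finset ℝ), E μ := by
      symm
      apply Finset.sum_subset Finset.subset_union_right
      intro μ _ hμ
      simp only [Finset.mem_insert, Finset.mem_singleton, not_or] at hμ
      exact hlev μ hμ.1 hμ.2.2 hμ.2.1
    rw [h2, h3, Finset.sum_insert, Finset.sum_insert, Finset.sum_singleton, add_assoc]
    · rw [Finset.mem_singleton]
      linarith
    · rw [Finset.mem_insert, Finset.mem_singleton, not_or]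
      exact ⟨by linarith, ht.ne'⟩
  have h0' : (t : ℂ) ≠ 0 := by exact_mod_cast ht.ne'
  have hh : h = (t : ℂ) • (E t - E (-t)) := by
    have e1 : h * (E t + E (-t) + E 0) = h := by rw [hsum, mul_one]
    rw [mul_add, mul_add, D.spec.h_mul, D.spec.h_mul, D.spec.h_mul] at e1
    rw [← e1, smul_sub]
    push_cast
    rw [zero_smul, add_zero, neg_smul, sub_eq_add_neg]
  have hy : E t - E (-t) ∈ L := by
    have e1 : E t - E (-t) = (t : ℂ)⁻¹ • h := by rw [hh, smul_smul, inv_mul_cancel₀ h0', one_smul]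
    rw [e1]
    exact L.smul_mem _ D.mem
  have D' := D.dat3_55 ht hy
  have e0 : E3 (E t) (E (-t)) 0 = E 0 := by
    rw [E3_zero, ← hsum]
    abel
  exact D'.two_full55 hG1 hGs hτ (E3_three _ _) (by rw [E3_one]; exact hr) (by rw [e0]; exact h0)
    (by rw [e0]; exact hr0) hX

/-- the same for a Lie algebra of matrices without a Hermitian form -/
theorem two_matrix55 [Nonempty n] {Q' Qi : Matrix n n ℂ} (hQs : Q'ᵀ = Q') (hQ1 : Q' * Qi = 1) (hQ2 : Qi * Q' = 1)
    {L : Submodule ℂ (Matrix n n ℂ)} (hbr : ∀ X ∈ L, ∀ Y ∈ L, X * Y - Y * X ∈ L)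
    (hirr : ∀ W : Submodule ℂ (n → ℂ), (∀ X ∈ L, ∀ w ∈ W, X *ᵥ w ∈ W) → W = ⊥ ∨ W = ⊤)
    (hsk : ∀ X ∈ L, Xᵀ * Q' + Q' * X = 0) {h : Matrix n n ℂ} (hh : h ∈ L)
    {E : ℝ → Matrix n n ℂ} {Λ : Finset ℝ} (hE : SD h E Λ) {t : ℝ} (ht : 0 < t)
    (hlev : ∀ ν, ν ≠ t → ν ≠ 0 → ν ≠ -t → E ν = 0) (hr : (E t).rank = 2) (h0 : E 0 ≠ 0) (hr0 : (E 0).rank ≤ 2)
    {X : Matrix n n ℂ} (hX : Xᵀ * Q' + Q' * X = 0) : X ∈ L := by
  classical
  obtain ⟨B, Bi, h1, h2, h3, h4⟩ := exists_herm L hbr hirr (fun X hX => tr_of_skew98 hQ1 hQ2 (hsk X hX)) hh hE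
  have D := dat_irr98 (ε := 1) (by norm_num) (by rw [hQs, one_smul]) hQ1 hQ2 hbr hirr hsk hh hE h1 h2 h3 h4
  have b1 : Bᵀ * Biᵀ = 1 := by rw [← Matrix.transpose_mul, h2, Matrix.transpose_one]
  have hGiG : B * Qi * Bᵀ * (Biᵀ * Q' * Bi) = 1 := by
    calc B * Qi * Bᵀ * (Biᵀ * Q' * Bi) = B * Qi * (Bᵀ * Biᵀ) * Q' * Bi := by simp only [mul_assoc]
      _ = B * (Qi * Q') * Bi := by rw [b1, mul_one]; simp only [mul_assoc]
      _ = 1 := by rw [hQ2, mul_one, h1]
  have hF : (Biᵀ * Q' * Bi)ᵀ = Biᵀ * Q' * Bi := by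
    rw [Matrix.transpose_mul, Matrix.transpose_mul, Matrix.transpose_transpose, hQs, ← mul_assoc]
  have hEE : ∀ μ, E μ * E μ = E μ := fun μ => by rw [hE.mul, if_pos rfl]
  have r1 : ∀ μ, (cj B Bi (E μ)).rank = (E μ).rank := fun μ => rank_cj h1 h2 (hEE μ)
  have key := D.two_lev55 (G := Biᵀ * Q' * Bi) (Gi := B * Qi * Bᵀ) hGiG hF (fun x => rfl) ht
    (fun ν n1 n2 n3 => by rw [hlev ν n1 n2 n3, cj_zero]) (by rw [r1]; exact hr) (by
      intro h5
      apply h0
      have h6 := congrArg (cj Bi B) h5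
      rwa [cj_cj h2, cj_zero] at h6) (by rw [r1]; exact hr0) (tG_cj27 (B := B) hQ2 h2 hX)
  rwa [mem_LBB27, cj_cj h2] at key

/-- The exceptional numbers `h` for a prime number `s`: the numbers `Exc55` if `s` is odd, and `3`, `4` if `s = 2`. -/
def ExcAll55 (s h : ℕ) : Prop := (s ≠ 2 ∧ Exc55 s h) ∨ (s = 2 ∧ (h = 3 ∨ h = 4))

variable {w : ℤ} {Q : Matrix n n ℚ} {S : Finset ℤ} {P : ℤ → Matrix n n ℂ}

namespace IsHW

/-- **Three Hodge numbers `2, h, 2`: the Lie algebra.** -/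
theorem two_LH55 (H : IsHW w Q S P)
    (hEnd : ∀ A : Matrix n n ℚ, (∀ p, toC A * P p = P p * toC A) → ∃ c : ℚ, A = c • (1 : Matrix n n ℚ))
    {a b c : ℤ} (haw : a + b = w) (hcw : 2 * c = w) (hca : c < a) (hP : ∀ p, p ≠ a → p ≠ c → p ≠ b → P p = 0)
    (s2 : (P a).rank = 2) (h0 : (P c).rank ≠ 0) (h3' : (P c).rank ≠ 3) (h4' : (P c).rank ≠ 4) :
    ∀ X : Matrix n n ℂ, Xᵀ * toC Q + toC Q * X = 0 → X ∈ LH Q S P := by
  classical
  subst hcw
  intro X hX
  have haS : a ∈ S := by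
    by_contra h5
    rw [H.supp a h5, Matrix.rank_zero] at s2
    omega
  rcases Nat.lt_or_ge 4 (P c).rank with h5 | h5
  · have hsum : ∑ p ∈ S.filter (fun p => c < p), (P p).rank = 2 := by
      rw [Finset.sum_eq_single a, s2]
      · intro p hp hpa
        rw [hP p hpa (by have := (Finset.mem_filter.1 hp).2; omega) (by have := (Finset.mem_filter.1 hp).2; omega),
          Matrix.rank_zero]
      · intro h6
        exact absurd (Finset.mem_filter.2 ⟨haS, hca⟩) h6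
    exact so_kills4 H.toHS hEnd (by rw [hsum]) (by rw [hsum]; omega) hX
  · have hr0 : (P c).rank ≤ 2 := by omega
    obtain ⟨B, Bi, Qi, h1, h2, h3, h4, hM⟩ := H.exists_basis
    have D := H.datW hEnd h1 h2 h3 h4 hM
    have hPP : ∀ p, P p * P p = P p := fun p => by rw [H.mul, if_pos rfl]
    have b1 : Bᵀ * Biᵀ = 1 := by rw [← Matrix.transpose_mul, h2, Matrix.transpose_one]
    have hQs : (toC Q)ᵀ = toC Q := by
      have h5 := H.Q_symm
      rwa [(even_two_mul c).neg_one_zpow, one_smul] at h5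
    have hta : ((2 * a - 2 * c : ℤ) : ℝ) = ((a - b : ℤ) : ℝ) := by
      congr 1
      omega
    have htb : ((2 * b - 2 * c : ℤ) : ℝ) = -((a - b : ℤ) : ℝ) := by
      rw [← Int.cast_neg]
      congr 1
      omega
    have Ea : EW (2 * c) S P B Bi ((a - b : ℤ) : ℝ) = cj B Bi (P a) := by rw [← hta, H.EW_int]
    have E0 : EW (2 * c) S P B Bi 0 = cj B Bi (P c) := by
      have e1 := H.EW_int B Bi c
      rw [sub_self, Int.cast_zero] at e1
      exact e1
    have ht : (0 : ℝ) < ((a - b : ℤ) : ℝ) := by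
      have : (0 : ℤ) < a - b := by omega
      exact_mod_cast this
    have hlev : ∀ ν : ℝ, ν ≠ ((a - b : ℤ) : ℝ) → ν ≠ 0 → ν ≠ -((a - b : ℤ) : ℝ) → EW (2 * c) S P B Bi ν = 0 := by
      intro ν n1 n2 n3
      by_cases hex : ∃ p : ℤ, ν = ((2 * p - 2 * c : ℤ) : ℝ)
      · obtain ⟨p, rfl⟩ := hex
        rw [H.EW_int, hP p, cj_zero]
        · rintro rfl
          exact n1 hta
        · rintro rfl
          apply n2
          rw [sub_self, Int.cast_zero]
        · rintro rfl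
          exact n3 htb
      · push Not at hex
        exact EW_other B Bi fun p _ => (hex p).symm
    have hx : tau B Bi (toC Q) Qi (cj B Bi X) = -cj B Bi X := by
      rw [tau_apply, cj_cj h2, mul_assoc, eq_neg_of_add_eq_zero_left hX, mul_neg, ← mul_assoc, h4, one_mul, cj_neg]
    have key := D.two_lev55 (G := Biᵀ * toC Q * Bi) (Gi := B * Qi * Bᵀ) (by
        calc B * Qi * Bᵀ * (Biᵀ * toC Q * Bi) = B * Qi * (Bᵀ * Biᵀ) * toC Q * Bi := by simp only [mul_assoc]
          _ = B * (Qi * toC Q) * Bi := by rw [b1, mul_one]; simp only [mul_assoc]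
          _ = 1 := by rw [h4, mul_one, h1]) (by
        rw [Matrix.transpose_mul, Matrix.transpose_mul, Matrix.transpose_transpose, hQs, mul_assoc]) (by
        intro x
        rw [tau_apply]
        unfold cj
        rw [Matrix.transpose_mul, Matrix.transpose_mul]
        simp only [mul_assoc]) ht hlev (by rw [Ea, rank_cj h1 h2 (hPP a), s2]) (by
        rw [E0]
        intro h5
        apply h0
        have h6 := congrArg (cj Bi B) h5
        rw [cj_cj h2, cj_zero] at h6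
        rw [h6, Matrix.rank_zero]) (by rw [E0, rank_cj h1 h2 (hPP c)]; exact hr0) hx
    rwa [mem_LB, cj_cj h2] at key

/-- **Three Hodge numbers `s, h, s`, `s` a prime number: the Lie algebra.** -/
theorem all_LH55 (H : IsHW w Q S P)
    (hEnd : ∀ A : Matrix n n ℚ, (∀ p, toC A * P p = P p * toC A) → ∃ c : ℚ, A = c • (1 : Matrix n n ℚ))
    {a b c : ℤ} (haw : a + b = w) (hcw : 2 * c = w) (hca : c < a) (hP : ∀ p, p ≠ a → p ≠ c → p ≠ b → P p = 0)
    (sp : (P a).rank.Prime) (h0 : (P c).rank ≠ 0) (hx : ¬ ExcAll55 (P a).rank (P c).rank) :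
    ∀ X : Matrix n n ℂ, Xᵀ * toC Q + toC Q * X = 0 → X ∈ LH Q S P := by
  by_cases s2 : (P a).rank = 2
  · exact H.two_LH55 hEnd haw hcw hca hP s2 h0 (fun h3 => hx (Or.inr ⟨s2, Or.inl h3⟩))
      (fun h4 => hx (Or.inr ⟨s2, Or.inr h4⟩))
  · exact H.prime_LH55 hEnd haw hcw hca hP sp s2 h0 (fun h3 => hx (Or.inl ⟨s2, h3⟩))

end IsHW

namespace IsGalP

variable {Γ : Subgroup (GL n ℂ)} {R : ℤ → Matrix n n ℂ}

/-- **Three Hodge-Tate numbers `2, h, 2`, `h` odd: the Lie algebra of the Galois group.** -/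
theorem two_LG55 (H : IsHW w Q S P) (G : IsGalP w Q S P Γ R) (hirr : VIrr Γ)
    {a b c : ℤ} (haw : a + b = w) (hcw : 2 * c = w) (hca : c < a) (hP : ∀ p, p ≠ a → p ≠ c → p ≠ b → P p = 0)
    (s2 : (P a).rank = 2) (hsh : ¬ (P a).rank ∣ (P c).rank) (h3' : (P c).rank ≠ 3) :
    ∀ X : Matrix n n ℂ, Xᵀ * toC Q + toC Q * X = 0 → X ∈ LG Γ := by
  rw [s2] at hsh
  classical
  have hgcd : ∀ d : ℕ, (∀ p, d ∣ (P p).rank) → d = 1 := by
    intro d hd
    have ha := hd a
    rw [s2] at ha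
    rcases (Nat.dvd_prime Nat.prime_two).1 ha with h1 | h1
    · exact h1
    · exact absurd (h1 ▸ hd c) hsh
  have hn : Nonempty n := by
    by_contra hcon
    rw [not_nonempty_iff] at hcon
    rw [Subsingleton.elim (P a) 0, Matrix.rank_zero] at s2
    omega
  intro X hX
  obtain ⟨_, _, Qi, _, _, hQ1, hQ2, _⟩ := H.exists_basis
  obtain ⟨hh, hS⟩ := G.irr3 H hirr hgcd
  have hQs : (toC Q)ᵀ = toC Q := by
    have h5 := H.Q_symm
    have h6 : Even w := ⟨c, by omega⟩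
    rwa [h6.neg_one_zpow, one_smul] at h5
  obtain ⟨t, htd⟩ : ∃ t : ℝ, t = ((2 * a - w : ℤ) : ℝ) := ⟨_, rfl⟩
  have ht : 0 < t := by
    rw [htd]
    have : (0 : ℤ) < 2 * a - w := by omega
    exact_mod_cast this
  have hEt : G.EP3 t = R a := by rw [htd, G.EP3_int]
  have hE0 : G.EP3 0 = R c := by
    have e1 := G.EP3_int c
    rw [show (2 * c - w : ℤ) = 0 by omega, Int.cast_zero] at e1
    exact e1
  have hlev : ∀ ν, ν ≠ t → ν ≠ 0 → ν ≠ -t → G.EP3 ν = 0 := by
    intro ν n1 n2 n3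
    by_cases hex : ∃ p : ℤ, ν = ((2 * p - w : ℤ) : ℝ)
    · obtain ⟨p, rfl⟩ := hex
      rw [G.EP3_int, G.ne3]
      apply hP
      · rintro rfl
        exact n1 htd.symm
      · rintro rfl
        apply n2
        rw [hcw, sub_self, Int.cast_zero]
      · rintro rfl
        apply n3
        rw [htd]
        have : (2 * p - w : ℤ) = -(2 * a - w) := by omega
        rw [this]
        push_cast
        ring
    · push Not at hex
      exact G.EP3_other fun p _ => (hex p).symm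
  have hmem : X ∈ LS Q Γ := by
    rcases Nat.lt_or_ge 4 (P c).rank with h5 | h5
    · have haS : a ∈ S := by
        by_contra h6
        rw [H.supp a h6, Matrix.rank_zero] at s2
        omega
      have hsum : ∑ μ ∈ (S.image fun p : ℤ => ((2 * p - w : ℤ) : ℝ)).filter (fun μ => 0 < μ), (G.EP3 μ).rank = 2 := by
        rw [Finset.sum_eq_single t]
        · rw [hEt, G.rank, s2]
        · intro μ hμ hμt
          have h6 := (Finset.mem_filter.1 hμ).2
          rw [hlev μ hμt h6.ne' (by linarith), Matrix.rank_zero]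
        · intro h6
          exact absurd (Finset.mem_filter.2 ⟨Finset.mem_image.2 ⟨a, haS, htd.symm⟩, ht⟩) h6
      exact full_of_irr4 (toC Q) Qi hQs hQ1 hQ2 (LS Q Γ) (fun X hX Y hY => LS_br hX hY) hS (fun X hX => hX.2) hh
        G.sd3 (by rw [hsum]) (by rw [hsum, hE0, G.rank]; omega) (fun d h => G.div3 H hgcd d h)
        (fun hne htr => exists_herm (LS Q Γ) (fun X hX Y hY => LS_br hX hY) hS htr hh G.sd3) hX
    · exact two_matrix55 hQs hQ1 hQ2 (L := LS Q Γ) (fun X hX Y hY => LS_br hX hY) hS (fun X hX => hX.2) hh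
        G.sd3 ht hlev (by rw [hEt, G.rank, s2]) (by
          rw [hE0]
          intro h6
          have h7 := G.ne3.1 h6
          apply hsh
          rw [h7, Matrix.rank_zero]
          exact dvd_zero _) (by rw [hE0, G.rank]; omega) hX
  exact hmem.1

/-- **Three Hodge-Tate numbers `s, h, s`, `s` a prime number: the Lie algebra of the Galois group.** -/
theorem all_LG55 (H : IsHW w Q S P) (G : IsGalP w Q S P Γ R) (hirr : VIrr Γ)
    {a b c : ℤ} (haw : a + b = w) (hcw : 2 * c = w) (hca : c < a) (hP : ∀ p, p ≠ a → p ≠ c → p ≠ b → P p = 0)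
    (sp : (P a).rank.Prime) (hsh : ¬ (P a).rank ∣ (P c).rank) (hx : ¬ ExcAll55 (P a).rank (P c).rank) :
    ∀ X : Matrix n n ℂ, Xᵀ * toC Q + toC Q * X = 0 → X ∈ LG Γ := by
  by_cases s2 : (P a).rank = 2
  · exact two_LG55 H G hirr haw hcw hca hP s2 hsh (fun h3 => hx (Or.inr ⟨s2, Or.inl h3⟩))
  · exact prime_LG55 H G hirr haw hcw hca hP sp s2 hsh (fun h3 => hx (Or.inl ⟨s2, h3⟩))

end IsGalP

end MH
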