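import Pool.Agent.Helper55.UV.Prime

/-!
Project UV (MP_b8862a_ag): three eigenvalues `1, 0, -1`: if the block `(1, 1)` lies in `L`, then `L` contains all skew
matrices.
-/

set_option linter.unusedSectionVars false

open Matrix

namespace MH

variable {n : Type*} [Fintype n] [DecidableEq n]
variable {h : Matrix n n ℂ} {E : ℝ → Matrix n n ℂ} {Λ : Finset ℝ}
variable {τ : Matrix n n ℂ →ₗ[ℂ] Matrix n n ℂ} {L : Submodule ℂ (Matrix n n ℂ)}

/-- the skew matrices built from the block `(μ, ν)` lie in `L` -/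
def SS55 (τ : Matrix n n ℂ →ₗ[ℂ] Matrix n n ℂ) (L : Submodule ℂ (Matrix n n ℂ)) (E : ℝ → Matrix n n ℂ) (μ ν : ℝ) :
    Prop :=
  ∀ Y : Matrix n n ℂ, E μ * Y = Y → Y * E ν = Y → Y - τ Y ∈ L

namespace Dat

variable (D : Dat τ L h E Λ) {μ ν ρ : ℝ}
include D

lemma tauL55 {Y : Matrix n n ℂ} (h1 : E μ * Y = Y) : τ Y * E (-μ) = τ Y := by
  rw [← D.tauE, ← D.inv.mul, h1]

lemma tauR55 {Y : Matrix n n ℂ} (h1 : Y * E ν = Y) : E (-ν) * τ Y = τ Y := by
  rw [← D.tauE, ← D.inv.mul, h1]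

lemma orth55 {A B : Matrix n n ℂ} (hA : A * E μ = A) (hB : E ν * B = B) (hne : μ ≠ ν) : A * B = 0 := by
  rw [← hA, ← hB, mul_assoc, ← mul_assoc (E μ), D.spec.mul, if_neg hne, zero_mul, mul_zero]

lemma SS_tau55 (hS : SS55 τ L E μ ν) : SS55 τ L E (-ν) (-μ) := by
  intro Y h1 h2
  have e1 : E μ * τ Y = τ Y := by
    have := D.tauR55 h2
    rwa [neg_neg] at this
  have e2 : τ Y * E ν = τ Y := by
    have := D.tauL55 h1
    rwa [neg_neg] at this
  have e3 := hS _ e1 e2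
  rw [D.inv.inv] at e3
  have e4 : Y - τ Y = -(τ Y - Y) := by abel
  rw [e4]
  exact neg_mem e3

lemma SS_star55 (hS : SS55 τ L E μ ν) : SS55 τ L E ν μ := by
  intro Y h1 h2
  have e1 : E μ * Yᴴ = Yᴴ := by rw [← D.spec.star μ, ← conjTranspose_mul, h2]
  have e2 : Yᴴ * E ν = Yᴴ := by rw [← D.spec.star ν, ← conjTranspose_mul, h1]
  have e3 := D.st _ (hS _ e1 e2)
  rwa [conjTranspose_sub, D.inv.star, conjTranspose_conjTranspose, conjTranspose_conjTranspose] at e3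

/-- every matrix in the block `(μ, ν)` is a sum of products through the block `ρ` -/
lemma SS_comp55 (hρ : E ρ ≠ 0) (hP : ∀ Y Z : Matrix n n ℂ, E μ * Y = Y → Y * E ρ = Y → E ρ * Z = Z → Z * E ν = Z →
    Y * Z - τ (Y * Z) ∈ L) : SS55 τ L E μ ν := by
  intro X h1 h2
  have hEE : ∀ μ, E μ * E μ = E μ := fun μ => by rw [D.spec.mul, if_pos rfl]
  obtain ⟨i, j, hij⟩ : ∃ i j, E ρ i j ≠ 0 := by
    by_contra hcon
    push Not at hcon
    exact hρ (by ext i j; exact hcon i j)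
  have key : X = ∑ k, (X * Matrix.single k i 1 * E ρ) * ((E ρ i j)⁻¹ • (E ρ * Matrix.single j k 1 * E ν)) := by
    have e1 : ∀ k, (X * Matrix.single k i 1 * E ρ) * ((E ρ i j)⁻¹ • (E ρ * Matrix.single j k 1 * E ν)) =
        X * Matrix.single k k 1 * E ν := by
      intro k
      have e2 : (X * Matrix.single k i 1 * E ρ) * (E ρ * Matrix.single j k 1 * E ν) =
          X * (Matrix.single k i 1 * (E ρ * E ρ) * Matrix.single j k 1) * E ν := by noncomm_ring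
      rw [mul_smul_comm, e2, hEE, Matrix.single_mul_mul_single, one_mul, mul_one]
      have e3 : (Matrix.single k k (E ρ i j) : Matrix n n ℂ) = (E ρ i j) • Matrix.single k k 1 := by
        rw [Matrix.smul_single, smul_eq_mul, mul_one]
      rw [e3, mul_smul_comm, smul_mul_assoc, smul_smul, inv_mul_cancel₀ hij, one_smul]
    rw [Finset.sum_congr rfl fun k _ => e1 k, ← Finset.sum_mul, ← Finset.mul_sum]
    rw [Matrix.sum_single_one, mul_one, h2]
  rw [key, map_sum, ← Finset.sum_sub_distrib]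
  refine Submodule.sum_mem _ fun k _ => hP _ _ ?_ ?_ ?_ ?_
  · rw [← mul_assoc, ← mul_assoc, h1]
  · rw [mul_assoc, hEE]
  · rw [mul_smul_comm, ← mul_assoc, ← mul_assoc, hEE]
  · rw [smul_mul_assoc, mul_assoc, hEE]

lemma br_SS55 {P R : Matrix n n ℂ} (hP : P - τ P ∈ L) (hR : R - τ R ∈ L) :
    P * R - P * τ R - τ P * R + τ P * τ R - R * P + R * τ P + τ R * P - τ R * τ P ∈ L := by
  have h1 := D.br _ hP _ hR
  have h2 : P * R - P * τ R - τ P * R + τ P * τ R - R * P + R * τ P + τ R * P - τ R * τ P =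
      (P - τ P) * (R - τ R) - (R - τ R) * (P - τ P) := by noncomm_ring
  rw [h2]
  exact h1

/-- the block `(1, -1)` -/
lemma SS_top55 (h0 : E 0 ≠ 0) (hS : SS55 τ L E 1 0) : SS55 τ L E 1 (-1) := by
  refine D.SS_comp55 h0 fun Y Z y1 y2 z1 z2 => ?_
  have hS' := D.SS_tau55 hS
  rw [neg_zero] at hS'
  have t1 := D.tauL55 y1
  have t2 := D.tauR55 y2
  have t3 := D.tauL55 z1
  have t4 := D.tauR55 z2
  rw [neg_zero] at t2 t3
  rw [neg_neg] at t4
  have h1 := D.br_SS55 (hS Y y1 y2) (hS' Z z1 z2)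
  rw [D.orth55 y2 t4 (by norm_num), D.orth55 t1 z1 (by norm_num), D.orth55 t1 t4 (by norm_num),
    D.orth55 z2 y1 (by norm_num), D.orth55 z2 t2 (by norm_num), D.orth55 t3 y1 (by norm_num)] at h1
  rw [D.inv.mul]
  have e1 : Y * Z - τ Z * τ Y = Y * Z - 0 - 0 + 0 - 0 + 0 + 0 - τ Z * τ Y := by abel
  rw [e1]
  exact h1

/-- the block `(0, 0)` -/
lemma SS_mid55 (h0 : E 1 ≠ 0) (hS : SS55 τ L E 1 0) (hS1 : SS55 τ L E 1 1) : SS55 τ L E 0 0 := by
  refine D.SS_comp55 h0 fun Y Z y1 y2 z1 z2 => ?_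
  have hS' := D.SS_star55 hS
  have t1 := D.tauL55 y1
  have t2 := D.tauR55 y2
  have t3 := D.tauL55 z1
  have t4 := D.tauR55 z2
  rw [neg_zero] at t1 t4
  have h1 := D.br_SS55 (hS' Y y1 y2) (hS Z z1 z2)
  have h2 := hS1 (Z * Y) (by rw [← mul_assoc, z1]) (by rw [mul_assoc, y2])
  rw [D.inv.mul] at h2 ⊢
  rw [D.orth55 y2 t4 (by norm_num), D.orth55 t1 z1 (by norm_num), D.orth55 z2 t2 (by norm_num),
    D.orth55 t3 y1 (by norm_num)] at h1
  have e1 : Y * Z - τ Z * τ Y = (Y * Z - 0 - 0 + τ Y * τ Z - Z * Y + 0 + 0 - τ Z * τ Y) + (Z * Y - τ Y * τ Z) := by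
    abel
  rw [e1]
  exact add_mem h1 h2

/-- **All blocks.** -/
theorem full_blk55 (T : Three27 E) (h0 : E 0 ≠ 0) (h1 : E 1 ≠ 0) (hS : SS55 τ L E 1 0) (hS1 : SS55 τ L E 1 1)
    {X : Matrix n n ℂ} (hX : τ X = -X) : X ∈ L := by
  have hEE : ∀ μ, E μ * E μ = E μ := fun μ => by rw [D.spec.mul, if_pos rfl]
  have s11 := hS1
  have s10 := hS
  have s1m := D.SS_top55 h0 hS
  have s01 := D.SS_star55 hS
  have s00 := D.SS_mid55 h1 hS hS1
  have s0m : SS55 τ L E 0 (-1) := by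
    have := D.SS_tau55 hS
    rwa [neg_zero] at this
  have sm1 := D.SS_star55 s1m
  have sm0 := D.SS_star55 s0m
  have smm := D.SS_tau55 hS1
  obtain ⟨φ, hφ⟩ : ∃ φ : Matrix n n ℂ →ₗ[ℂ] Matrix n n ℂ, ∀ Y, φ Y = Y - τ Y := ⟨LinearMap.id - τ, fun _ => rfl⟩
  have hs : ∀ μ ν, SS55 τ L E μ ν → φ (E μ * X * E ν) ∈ L := by
    intro μ ν h2
    rw [hφ]
    refine h2 _ ?_ ?_
    · rw [← mul_assoc, ← mul_assoc, hEE]
    · rw [mul_assoc, hEE]
  have hsum := D.sum327 T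
  have e1 : X = E 1 * X * E 1 + E 1 * X * E 0 + E 1 * X * E (-1) + (E 0 * X * E 1 + E 0 * X * E 0 + E 0 * X * E (-1)) +
      (E (-1) * X * E 1 + E (-1) * X * E 0 + E (-1) * X * E (-1)) := by
    have e2 : ∀ Z : Matrix n n ℂ, Z = Z * E 1 + Z * E 0 + Z * E (-1) := by
      intro Z
      rw [← mul_add, ← mul_add, hsum, mul_one]
    have e3 : X = E 1 * X + E 0 * X + E (-1) * X := by
      rw [← add_mul, ← add_mul, hsum, one_mul]
    rw [← e2 (E 1 * X), ← e2 (E 0 * X), ← e2 (E (-1) * X)]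
    exact e3
  have e3 : φ X = (2 : ℂ) • X := by
    rw [hφ, hX, sub_neg_eq_add, two_smul]
  have e4 : φ X ∈ L := by
    rw [e1]
    simp only [map_add]
    exact add_mem (add_mem (add_mem (add_mem (hs _ _ s11) (hs _ _ s10)) (hs _ _ s1m))
      (add_mem (add_mem (hs _ _ s01) (hs _ _ s00)) (hs _ _ s0m)))
      (add_mem (add_mem (hs _ _ sm1) (hs _ _ sm0)) (hs _ _ smm))
  rw [e3] at e4
  have e5 := L.smul_mem (2 : ℂ)⁻¹ e4
  rwa [smul_smul, inv_mul_cancel₀ two_ne_zero, one_smul] at e5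

end Dat

end MH
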