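import Pool.Agent.Helper55.UV.Blk

/-!
Project UV (MP_b8862a_ag): three eigenvalues `1, 0, -1`: if the block `(1, 1)` lies in `L`, then the block `(1, 0)` lies
in `L`, and `L` contains all skew matrices.
-/

set_option linter.unusedSectionVars false

open Matrix

namespace MH

variable {n : Type*} [Fintype n] [DecidableEq n]
variable {h : Matrix n n ℂ} {E : ℝ → Matrix n n ℂ} {Λ : Finset ℝ}
variable {τ : Matrix n n ℂ →ₗ[ℂ] Matrix n n ℂ} {L : Submodule ℂ (Matrix n n ℂ)}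

namespace Dat

variable (D : Dat τ L h E Λ)
include D

/-- If the elements of positive degree kill a subspace of the eigenspace of `ν₀`, there is no eigenvalue larger than
`ν₀`. -/
theorem low_kill55 {ν₀ : ℝ} {W₀ : Submodule ℂ (n → ℂ)} (hne : W₀ ≠ ⊥) (hW : ∀ w ∈ W₀, E ν₀ *ᵥ w = w)
    (hst : ∀ x ∈ Ld L h 0, ∀ w ∈ W₀, x *ᵥ w ∈ W₀) (hk : ∀ ν : ℝ, 0 < ν → ∀ x ∈ Ld L h ν, ∀ w ∈ W₀, x *ᵥ w = 0)
    {μ : ℝ} (hμ : ν₀ < μ) : E μ = 0 := by
  obtain ⟨V', hV'⟩ : ∃ V' : Submodule ℂ (n → ℂ), V' = sInf {U : Submodule ℂ (n → ℂ) | W₀ ≤ U ∧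
    ∀ ν : ℝ, ν < 0 → ∀ y ∈ Ld L h ν, ∀ u ∈ U, y *ᵥ u ∈ U} := ⟨_, rfl⟩
  have hmin : ∀ U : Submodule ℂ (n → ℂ), W₀ ≤ U → (∀ ν : ℝ, ν < 0 → ∀ y ∈ Ld L h ν, ∀ u ∈ U, y *ᵥ u ∈ U) →
      V' ≤ U := fun U h1 h2 => by
    rw [hV']
    exact sInf_le ⟨h1, h2⟩
  have hW0 : W₀ ≤ V' := by
    rw [hV']
    exact le_sInf fun U hU => hU.1
  have hneg : ∀ ν : ℝ, ν < 0 → ∀ y ∈ Ld L h ν, ∀ u ∈ V', y *ᵥ u ∈ V' := by
    intro ν hν y hy u hu
    rw [hV', Submodule.mem_sInf] at hu ⊢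
    intro U hU
    exact hU.2 ν hν y hy u (hu U hU)
  -- the elements of nonnegative degree
  have hpos : ∀ u ∈ V', ∀ ν : ℝ, 0 ≤ ν → ∀ x ∈ Ld L h ν, x *ᵥ u ∈ V' := by
    have h1 : V' ≤ { carrier := {u | u ∈ V' ∧ ∀ ν : ℝ, 0 ≤ ν → ∀ x ∈ Ld L h ν, x *ᵥ u ∈ V'}
                     add_mem' := fun {a b} ha hb => ⟨V'.add_mem ha.1 hb.1, fun ν hν x hx => by
                       rw [Matrix.mulVec_add]
                       exact V'.add_mem (ha.2 ν hν x hx) (hb.2 ν hν x hx)⟩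
                     zero_mem' := ⟨V'.zero_mem, fun ν hν x hx => by
                       rw [Matrix.mulVec_zero]
                       exact V'.zero_mem⟩
                     smul_mem' := fun c a ha => ⟨V'.smul_mem c ha.1, fun ν hν x hx => by
                       rw [Matrix.mulVec_smul]
                       exact V'.smul_mem c (ha.2 ν hν x hx)⟩ } := by
      apply hmin
      · intro w hw
        refine ⟨hW0 hw, fun ν hν x hx => ?_⟩
        rcases hν.eq_or_lt with h2 | h2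
        · subst h2
          exact hW0 (hst x hx w hw)
        · rw [hk ν h2 x hx w hw]
          exact V'.zero_mem
      · intro ν' hν' y hy u hu
        refine ⟨hneg ν' hν' y hy u hu.1, fun ν hν x hx => ?_⟩
        have h2 : x *ᵥ (y *ᵥ u) = y *ᵥ (x *ᵥ u) + (x * y - y * x) *ᵥ u := by
          rw [Matrix.mulVec_mulVec, Matrix.mulVec_mulVec, Matrix.sub_mulVec]
          abel
        rw [h2]
        refine V'.add_mem (hneg ν' hν' y hy _ (hu.2 ν hν x hx)) ?_
        have h3 := Ld_bracket D.br hx hy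
        rcases le_or_gt 0 (ν + ν') with h4 | h4
        · exact hu.2 _ h4 _ h3
        · exact hneg _ h4 _ h3 u hu.1
    exact fun u hu => (h1 hu).2
  have hstab : ∀ x ∈ L, ∀ u ∈ V', x *ᵥ u ∈ V' := by
    intro x hx u hu
    rw [D.spec.sum_cmp x, Matrix.sum_mulVec]
    refine V'.sum_mem fun ν _ => ?_
    have h1 := D.cmp_mem_Ld hx ν
    rcases le_or_gt 0 ν with h4 | h4
    · exact hpos u hu ν h4 _ h1
    · exact hneg ν h4 _ h1 u hu
  have htopV : V' = ⊤ := by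
    rcases D.stable V' hstab with h1 | h1
    · exfalso
      apply hne
      rw [eq_bot_iff, ← h1]
      exact hW0
    · exact h1
  have h1 : V' ≤ { carrier := {u | ∀ μ, ν₀ < μ → E μ *ᵥ u = 0}
                   add_mem' := fun {a b} ha hb μ hμ => by
                     rw [Matrix.mulVec_add, ha μ hμ, hb μ hμ, add_zero]
                   zero_mem' := fun μ _ => Matrix.mulVec_zero _
                   smul_mem' := fun c a ha μ hμ => by
                     rw [Matrix.mulVec_smul, ha μ hμ, smul_zero] } := by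
    apply hmin
    · intro w hw μ hμ
      rw [← hW w hw, Matrix.mulVec_mulVec, D.spec.mul, if_neg hμ.ne', Matrix.zero_mulVec]
    · intro ν hν y hy u hu μ hμ
      have h2 : E μ * y = y * E (μ - ν) := by
        rw [mulE55 D hy, sub_add_cancel]
      rw [Matrix.mulVec_mulVec, h2, ← Matrix.mulVec_mulVec, hu (μ - ν) (by linarith), Matrix.mulVec_zero]
  refine Dat.mat_ext fun u => ?_
  have h2 : u ∈ V' := by rw [htopV]; exact Submodule.mem_top
  rw [Matrix.zero_mulVec]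
  exact h1 h2 μ hμ

/-- No vector of the middle eigenspace is killed by the elements of degree one. -/
theorem mid_kill55 (T : Three27 E) (h1 : E 1 ≠ 0) {v : n → ℂ} (hv : E 0 *ᵥ v = v) (hk : ∀ x ∈ Ld L h 1, x *ᵥ v = 0) :
    v = 0 := by
  by_contra hv0
  apply h1
  obtain ⟨W₀, hW₀⟩ : ∃ W₀ : Submodule ℂ (n → ℂ), ∀ u, u ∈ W₀ ↔ E 0 *ᵥ u = u ∧ ∀ x ∈ Ld L h 1, x *ᵥ u = 0 := by
    refine ⟨{ carrier := {u | E 0 *ᵥ u = u ∧ ∀ x ∈ Ld L h 1, x *ᵥ u = 0}
              add_mem' := fun {a b} ha hb => ⟨by rw [Matrix.mulVec_add, ha.1, hb.1],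
                fun x hx => by rw [Matrix.mulVec_add, ha.2 x hx, hb.2 x hx, add_zero]⟩
              zero_mem' := ⟨Matrix.mulVec_zero _, fun x _ => Matrix.mulVec_zero _⟩
              smul_mem' := fun c a ha => ⟨by rw [Matrix.mulVec_smul, ha.1],
                fun x hx => by rw [Matrix.mulVec_smul, ha.2 x hx, smul_zero]⟩ }, fun u => Iff.rfl⟩
  refine D.low_kill55 (ν₀ := 0) (W₀ := W₀) ?_ (fun w hw => ((hW₀ w).1 hw).1) ?_ ?_ one_pos
  · intro h2
    apply hv0
    have h3 : v ∈ (⊥ : Submodule ℂ (n → ℂ)) := by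
      rw [← h2, hW₀]
      exact ⟨hv, hk⟩
    exact (Submodule.mem_bot ℂ).1 h3
  · intro x hx w hw
    rw [hW₀] at hw ⊢
    refine ⟨?_, fun y hy => ?_⟩
    · rw [Matrix.mulVec_mulVec, D.Ld_comm_E98 hx, ← Matrix.mulVec_mulVec, hw.1]
    · have h2 := D.br_one55 hx hy
      have h3 : y *ᵥ (x *ᵥ w) = x *ᵥ (y *ᵥ w) - (x * y - y * x) *ᵥ w := by
        rw [Matrix.mulVec_mulVec, Matrix.mulVec_mulVec, Matrix.sub_mulVec]
        abel
      rw [h3, hw.2 y hy, hw.2 _ h2, Matrix.mulVec_zero, sub_zero]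
  · intro ν hν x hx w hw
    rw [hW₀] at hw
    by_cases h2 : ν = 1
    · subst h2
      exact hw.2 x hx
    · have h3 : x * E 0 = 0 := by
        rw [mulE55 D hx, zero_add, T ν h2 hν.ne' (by linarith), zero_mul]
      rw [← hw.1, Matrix.mulVec_mulVec, h3, Matrix.zero_mulVec]

/-- the block `(1, 0)` -/
theorem SS_one55 (T : Three27 E) (h1 : E 1 ≠ 0) (hS1 : SS55 τ L E 1 1) : SS55 τ L E 1 0 := by
  have hEE : ∀ μ, E μ * E μ = E μ := fun μ => by rw [D.spec.mul, if_pos rfl]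
  -- closed under left multiplication
  have hleft : ∀ A B : Matrix n n ℂ, E 1 * A = A → A * E 1 = A → E 1 * B = B → B * E 0 = B → B - τ B ∈ L →
      A * B - τ (A * B) ∈ L := by
    intro A B a1 a2 b1 b2 hB
    have t1 := D.tauL55 a1
    have t2 := D.tauR55 a2
    have t3 := D.tauL55 b1
    have t4 := D.tauR55 b2
    rw [neg_zero] at t4
    have h2 := D.br_SS55 (hS1 A a1 a2) hB
    rw [D.orth55 a2 t4 (by norm_num), D.orth55 t1 b1 (by norm_num), D.orth55 t1 t4 (by norm_num),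
      D.orth55 b2 a1 (by norm_num), D.orth55 b2 t2 (by norm_num), D.orth55 t3 a1 (by norm_num)] at h2
    rw [D.inv.mul]
    have e1 : A * B - τ B * τ A = A * B - 0 - 0 + 0 - 0 + 0 + 0 - τ B * τ A := by abel
    rw [e1]
    exact h2
  have hone : ∀ x ∈ Ld L h 1, E 1 * x - τ (E 1 * x) = x := by
    intro x hx
    obtain ⟨-, -, -, -, x5⟩ := shape55 D T hx
    rw [D.inv.mul, D.sk x hx.1, D.tauE, neg_mul, sub_neg_eq_add, x5]
  -- the rows
  obtain ⟨R, hR⟩ : ∃ R : Submodule ℂ (n → ℂ), ∀ r, r ∈ R ↔ ∀ a : n → ℂ,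
      vecMulVec (E 1 *ᵥ a) (r ᵥ* E 0) - τ (vecMulVec (E 1 *ᵥ a) (r ᵥ* E 0)) ∈ L := by
    refine ⟨{ carrier := {r | ∀ a : n → ℂ,
                vecMulVec (E 1 *ᵥ a) (r ᵥ* E 0) - τ (vecMulVec (E 1 *ᵥ a) (r ᵥ* E 0)) ∈ L}
              add_mem' := fun {r s} hr hs a => ?_
              zero_mem' := fun a => ?_
              smul_mem' := fun c r hr a => ?_ }, fun r => Iff.rfl⟩
    · have e1 : vecMulVec (E 1 *ᵥ a) ((r + s) ᵥ* E 0) - τ (vecMulVec (E 1 *ᵥ a) ((r + s) ᵥ* E 0)) =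
          (vecMulVec (E 1 *ᵥ a) (r ᵥ* E 0) - τ (vecMulVec (E 1 *ᵥ a) (r ᵥ* E 0))) +
          (vecMulVec (E 1 *ᵥ a) (s ᵥ* E 0) - τ (vecMulVec (E 1 *ᵥ a) (s ᵥ* E 0))) := by
        rw [Matrix.add_vecMul, Matrix.vecMulVec_add, map_add]
        abel
      rw [e1]
      exact add_mem (hr a) (hs a)
    · rw [Matrix.zero_vecMul, Matrix.vecMulVec_zero, map_zero, sub_zero]
      exact zero_mem _
    · rw [Matrix.smul_vecMul, Matrix.vecMulVec_smul, map_smul, ← smul_sub]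
      exact L.smul_mem c (hr a)
  have htop : R = ⊤ := by
    by_contra hcon
    obtain ⟨f, hf0, hfR⟩ := Submodule.exists_le_ker_of_lt_top R (lt_top_iff_ne_top.2 hcon)
    obtain ⟨v, hv⟩ : ∃ v : n → ℂ, v = fun i => f (Pi.single i 1) := ⟨_, rfl⟩
    have hfv : ∀ r, f r = r ⬝ᵥ v := by
      intro r
      have e1 : r = ∑ i, r i • (Pi.single i 1 : n → ℂ) := by
        ext j
        simp [Finset.sum_apply, Pi.single_apply]
      conv_lhs => rw [e1]
      rw [map_sum, dotProduct]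
      refine Finset.sum_congr rfl fun i _ => ?_
      rw [map_smul, smul_eq_mul, hv]
    have hRv : ∀ r ∈ R, r ⬝ᵥ v = 0 := by
      intro r hr
      rw [← hfv]
      exact hfR hr
    -- `v` lies in the middle eigenspace
    have hv0 : E 0 *ᵥ v = v := by
      have h2 : ∀ s : n → ℂ, s ⬝ᵥ ((1 - E 0) *ᵥ v) = 0 := by
        intro s
        rw [Matrix.dotProduct_mulVec]
        refine hRv _ ((hR _).2 fun a => ?_)
        rw [Matrix.vecMul_vecMul, sub_mul, one_mul, hEE, sub_self, Matrix.vecMul_zero, Matrix.vecMulVec_zero,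
          map_zero, sub_zero]
        exact zero_mem _
      have h3 : (1 - E 0) *ᵥ v = 0 := dotProduct_eq_zero_iff.1 fun s => by
        rw [dotProduct_comm]
        exact h2 s
      rw [Matrix.sub_mulVec, Matrix.one_mulVec, sub_eq_zero] at h3
      exact h3.symm
    have hv1 : v = 0 := by
      refine D.mid_kill55 T h1 hv0 fun x hx => ?_
      obtain ⟨x1, x2, x3, x4, x5⟩ := shape55 D T hx
      have e1 : x *ᵥ v = (E 1 * x) *ᵥ v := by
        conv_lhs => rw [← hv0]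
        rw [Matrix.mulVec_mulVec, x3]
      rw [e1]
      refine dotProduct_eq_zero_iff.1 fun b => ?_
      rw [dotProduct_comm, Matrix.dotProduct_mulVec]
      refine hRv _ ((hR _).2 fun a => ?_)
      have e2 : vecMulVec (E 1 *ᵥ a) (b ᵥ* (E 1 * x) ᵥ* E 0) = vecMulVec (E 1 *ᵥ a) (b ᵥ* E 1) * (E 1 * x) := by
        have e3 : E 1 * x * E 0 = E 1 * x := by rw [mul_assoc, x3, ← mul_assoc, hEE]
        have e4 : E 1 * x = E 1 * (E 1 * x) := by rw [← mul_assoc, hEE]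
        rw [Matrix.vecMul_vecMul, e3, Matrix.vecMulVec_mul, Matrix.vecMul_vecMul, ← e4]
      rw [e2]
      refine hleft _ _ ?_ ?_ ?_ ?_ ?_
      · rw [Matrix.mul_vecMulVec, Matrix.mulVec_mulVec, hEE]
      · rw [Matrix.vecMulVec_mul, Matrix.vecMul_vecMul, hEE]
      · rw [← mul_assoc, hEE]
      · rw [mul_assoc, x3, ← mul_assoc, hEE]
      · rw [hone x hx]
        exact hx.1
    apply hf0
    apply LinearMap.ext
    intro r
    rw [hfv, hv1, dotProduct_zero, LinearMap.zero_apply]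
  intro Y y1 y2
  have key : Y = ∑ i, vecMulVec (E 1 *ᵥ (Y *ᵥ Pi.single i 1)) ((Pi.single i 1 : n → ℂ) ᵥ* E 0) := by
    have e1 : ∀ i, vecMulVec (E 1 *ᵥ (Y *ᵥ Pi.single i 1)) ((Pi.single i 1 : n → ℂ) ᵥ* E 0) =
        Y * Matrix.single i i 1 * E 0 := by
      intro i
      rw [← Matrix.vecMulVec_mul, Matrix.mulVec_mulVec, y1, ← Matrix.mul_vecMulVec]
      congr 2
      exact (Matrix.single_eq_single_vecMulVec_single i i).symm
    rw [Finset.sum_congr rfl fun i _ => e1 i, ← Finset.sum_mul, ← Finset.mul_sum, Matrix.sum_single_one, mul_one, y2]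
  rw [key, map_sum, ← Finset.sum_sub_distrib]
  refine Submodule.sum_mem _ fun i _ => ?_
  have h2 : (Pi.single i 1 : n → ℂ) ∈ R := by rw [htop]; exact Submodule.mem_top
  exact (hR _).1 h2 _

/-- **The block `(1, 1)` is enough.** -/
theorem full_top55 (T : Three27 E) (h0 : E 0 ≠ 0) (h1 : E 1 ≠ 0) (hS1 : SS55 τ L E 1 1) {X : Matrix n n ℂ}
    (hX : τ X = -X) : X ∈ L :=
  D.full_blk55 T h0 h1 (D.SS_one55 T h1 hS1) hS1 hX

end Dat

end MH
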