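import Mathlib

/-!
Project UV (MP_b8862a_ag): irreducible self-adjoint Lie algebras of `2 × 2` matrices.
-/

open Matrix

namespace MH

theorem gl_diag55 {M : Submodule ℂ (Matrix (Fin 2) (Fin 2) ℂ)} (h1 : 1 ∈ M)
    (hbr : ∀ x ∈ M, ∀ y ∈ M, x * y - y * x ∈ M) (hst : ∀ x ∈ M, xᴴ ∈ M) {d : Fin 2 → ℂ} (hd : diagonal d ∈ M)
    (hne : d 0 ≠ d 1) {x : Matrix (Fin 2) (Fin 2) ℂ} (hx : x ∈ M) (hx0 : x 1 0 ≠ 0) (y : Matrix (Fin 2) (Fin 2) ℂ) :
    y ∈ M := by
  have hd' : d 0 - d 1 ≠ 0 := sub_ne_zero.2 hne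
  -- the first projection
  have e00 : (!![1, 0; 0, 0] : Matrix (Fin 2) (Fin 2) ℂ) ∈ M := by
    have e1 : (!![1, 0; 0, 0] : Matrix (Fin 2) (Fin 2) ℂ) = (d 0 - d 1)⁻¹ • (diagonal d - d 1 • 1) := by
      ext i j
      fin_cases i <;> fin_cases j <;> simp [Matrix.diagonal, hd']
    rw [e1]
    exact M.smul_mem _ (sub_mem hd (M.smul_mem _ h1))
  obtain ⟨a, b, c, e, hxe⟩ : ∃ a b c e : ℂ, x = !![a, b; c, e] := ⟨_, _, _, _, Matrix.eta_fin_two x⟩
  have hc : c ≠ 0 := by
    intro hc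
    apply hx0
    rw [hxe, hc]
    rfl
  have hb1 : (!![0, b; -c, 0] : Matrix (Fin 2) (Fin 2) ℂ) ∈ M := by
    have e1 := hbr _ e00 _ hx
    rw [hxe, Matrix.mul_fin_two, Matrix.mul_fin_two] at e1
    convert e1 using 1
    ext i j
    fin_cases i <;> fin_cases j <;> simp
  have hb2 : (!![0, b; c, 0] : Matrix (Fin 2) (Fin 2) ℂ) ∈ M := by
    have e1 := hbr _ e00 _ hb1
    rw [Matrix.mul_fin_two, Matrix.mul_fin_two] at e1
    convert e1 using 1
    ext i j
    fin_cases i <;> fin_cases j <;> simp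
  have e10 : (!![0, 0; 1, 0] : Matrix (Fin 2) (Fin 2) ℂ) ∈ M := by
    have e1 : (!![0, 0; 1, 0] : Matrix (Fin 2) (Fin 2) ℂ) = (2 * c)⁻¹ • (!![0, b; c, 0] - !![0, b; -c, 0]) := by
      ext i j
      fin_cases i <;> fin_cases j <;> simp
      field_simp
      norm_num
    rw [e1]
    exact M.smul_mem _ (sub_mem hb2 hb1)
  have e01 : (!![0, 1; 0, 0] : Matrix (Fin 2) (Fin 2) ℂ) ∈ M := by
    have e1 := hst _ e10
    have e2 : (!![0, 0; 1, 0] : Matrix (Fin 2) (Fin 2) ℂ)ᴴ = !![0, 1; 0, 0] := by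
      ext i j
      fin_cases i <;> fin_cases j <;> simp [Matrix.conjTranspose_apply]
    rwa [e2] at e1
  have e2 : y = y 0 0 • (!![1, 0; 0, 0] : Matrix (Fin 2) (Fin 2) ℂ) + y 0 1 • !![0, 1; 0, 0] +
      y 1 0 • !![0, 0; 1, 0] + y 1 1 • (1 - !![1, 0; 0, 0]) := by
    ext i j
    fin_cases i <;> fin_cases j <;> simp
  rw [e2]
  exact add_mem (add_mem (add_mem (M.smul_mem _ e00) (M.smul_mem _ e01)) (M.smul_mem _ e10))
    (M.smul_mem _ (sub_mem h1 e00))

/-- An irreducible self-adjoint Lie algebra of `2 × 2` matrices that contains the scalars is everything. -/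
theorem gl_two55 {M : Submodule ℂ (Matrix (Fin 2) (Fin 2) ℂ)} (h1 : 1 ∈ M)
    (hbr : ∀ x ∈ M, ∀ y ∈ M, x * y - y * x ∈ M) (hst : ∀ x ∈ M, xᴴ ∈ M)
    (hirr : ∀ v : Fin 2 → ℂ, v ≠ 0 → ∃ x ∈ M, ∀ c : ℂ, x *ᵥ v ≠ c • v) (y : Matrix (Fin 2) (Fin 2) ℂ) : y ∈ M := by
  classical
  -- a Hermitian element that is no scalar
  obtain ⟨z, hz, hzs, hzn⟩ : ∃ z ∈ M, zᴴ = z ∧ ∀ c : ℂ, z ≠ c • (1 : Matrix (Fin 2) (Fin 2) ℂ) := by
    obtain ⟨x, hx, hxn⟩ := hirr (Pi.single 0 1) (by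
      intro h
      have := congrFun h 0
      simp at this)
    have hxs : ∀ c : ℂ, x ≠ c • (1 : Matrix (Fin 2) (Fin 2) ℂ) := by
      rintro c rfl
      exact hxn c (by rw [Matrix.smul_mulVec, Matrix.one_mulVec])
    by_cases ha : ∃ c : ℂ, x + xᴴ = c • (1 : Matrix (Fin 2) (Fin 2) ℂ)
    · obtain ⟨c, hc⟩ := ha
      refine ⟨Complex.I • (x - xᴴ), M.smul_mem _ (sub_mem hx (hst x hx)), ?_, fun c' hc' => ?_⟩
      · have h3 : star Complex.I = -Complex.I := Complex.conj_I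
        rw [conjTranspose_smul, conjTranspose_sub, conjTranspose_conjTranspose, h3, neg_smul, ← smul_neg, neg_sub]
      · have h4 : x - xᴴ = (-Complex.I * c') • (1 : Matrix (Fin 2) (Fin 2) ℂ) := by
          rw [mul_smul, ← hc', smul_smul]
          simp
        have h5 : x = ((c + -Complex.I * c') / 2) • (1 : Matrix (Fin 2) (Fin 2) ℂ) := by
          have h6 : (2 : ℂ) • x = (x + xᴴ) + (x - xᴴ) := by rw [two_smul]; abel
          rw [hc, h4, ← add_smul] at h6
          have h7 := congrArg (fun Z => (2 : ℂ)⁻¹ • Z) h6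
          simp only [smul_smul] at h7
          rw [inv_mul_cancel₀ two_ne_zero, one_smul] at h7
          rw [h7]
          congr 1
          ring
        exact hxs _ h5
    · push Not at ha
      refine ⟨x + xᴴ, add_mem hx (hst x hx), ?_, ha⟩
      rw [conjTranspose_add, conjTranspose_conjTranspose, add_comm]
  have hH : z.IsHermitian := hzs
  obtain ⟨U, hU⟩ : ∃ U : Matrix (Fin 2) (Fin 2) ℂ, U = (hH.eigenvectorUnitary : Matrix (Fin 2) (Fin 2) ℂ) := ⟨_, rfl⟩
  have hUU : Uᴴ * U = 1 := by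
    rw [hU]
    exact Matrix.mem_unitaryGroup_iff'.1 hH.eigenvectorUnitary.2
  have hUU' : U * Uᴴ = 1 := mul_eq_one_comm.1 hUU
  have hsp : Uᴴ * z * U = diagonal (RCLike.ofReal ∘ hH.eigenvalues) := by
    have h2 := hH.spectral_theorem
    have h3 : z = U * diagonal (RCLike.ofReal ∘ hH.eigenvalues) * Uᴴ := by
      rw [hU]
      exact h2
    calc Uᴴ * z * U = Uᴴ * (U * diagonal (RCLike.ofReal ∘ hH.eigenvalues) * Uᴴ) * U := by rw [← h3]
      _ = (Uᴴ * U) * diagonal (RCLike.ofReal ∘ hH.eigenvalues) * (Uᴴ * U) := by noncomm_ring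
      _ = _ := by rw [hUU, one_mul, mul_one]
  obtain ⟨d, hd⟩ : ∃ d : Fin 2 → ℂ, d = RCLike.ofReal ∘ hH.eigenvalues := ⟨_, rfl⟩
  rw [← hd] at hsp
  have hback : ∀ w : Matrix (Fin 2) (Fin 2) ℂ, U * (Uᴴ * w * U) * Uᴴ = w := by
    intro w
    calc U * (Uᴴ * w * U) * Uᴴ = (U * Uᴴ) * w * (U * Uᴴ) := by noncomm_ring
      _ = w := by rw [hUU', one_mul, mul_one]
  have hne : d 0 ≠ d 1 := by
    intro h01
    apply hzn (d 0)
    have h3 : diagonal d = d 0 • (1 : Matrix (Fin 2) (Fin 2) ℂ) := by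
      ext i j
      fin_cases i <;> fin_cases j <;> simp [Matrix.diagonal, h01]
    rw [← hback z, hsp, h3, mul_smul_comm, smul_mul_assoc, mul_one, hUU']
  -- the space in the new basis
  obtain ⟨M', hM'⟩ : ∃ M' : Submodule ℂ (Matrix (Fin 2) (Fin 2) ℂ), ∀ w, w ∈ M' ↔ U * w * Uᴴ ∈ M := by
    refine ⟨{ carrier := {w | U * w * Uᴴ ∈ M}
              add_mem' := fun {a b} ha hb => by
                change U * (a + b) * Uᴴ ∈ M
                rw [mul_add, add_mul]
                exact add_mem ha hb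
              zero_mem' := by
                change U * 0 * Uᴴ ∈ M
                rw [mul_zero, zero_mul]
                exact zero_mem _
              smul_mem' := fun c a ha => by
                change U * (c • a) * Uᴴ ∈ M
                rw [mul_smul_comm, smul_mul_assoc]
                exact M.smul_mem c ha }, fun w => Iff.rfl⟩
  obtain ⟨x, hx, hxn⟩ := hirr (U *ᵥ Pi.single 0 1) (by
    intro h
    have h2 := congrArg (fun v => Uᴴ *ᵥ v) h
    simp only [Matrix.mulVec_mulVec] at h2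
    rw [hUU, Matrix.one_mulVec, Matrix.mulVec_zero] at h2
    have := congrFun h2 0
    simp at this)
  have key := gl_diag55 (M := M') (d := d) (x := Uᴴ * x * U) (by
      rw [hM', mul_one, hUU']
      exact h1) (by
      intro a ha b hb
      rw [hM'] at ha hb ⊢
      have h2 := hbr _ ha _ hb
      have h3 : U * (a * b - b * a) * Uᴴ = U * a * Uᴴ * (U * b * Uᴴ) - U * b * Uᴴ * (U * a * Uᴴ) := by
        have e1 : ∀ a b : Matrix (Fin 2) (Fin 2) ℂ, U * a * Uᴴ * (U * b * Uᴴ) = U * (a * b) * Uᴴ := by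
          intro a b
          calc U * a * Uᴴ * (U * b * Uᴴ) = U * a * (Uᴴ * U) * b * Uᴴ := by noncomm_ring
            _ = _ := by rw [hUU]; noncomm_ring
        rw [e1, e1, mul_sub, sub_mul]
      rw [h3]
      exact h2) (by
      intro a ha
      rw [hM'] at ha ⊢
      have h2 := hst _ ha
      rwa [conjTranspose_mul, conjTranspose_mul, conjTranspose_conjTranspose, ← mul_assoc] at h2) (by
      rw [hM', ← hsp, hback]
      exact hz) hne (by
      rw [hM', hback]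
      exact hx) (by
      intro h0
      apply hxn ((Uᴴ * x * U) 0 0)
      have h2 : (Uᴴ * x * U) *ᵥ Pi.single 0 1 = (Uᴴ * x * U) 0 0 • Pi.single 0 1 := by
        ext i
        fin_cases i <;> simp [h0]
      have h3 := congrArg (fun v => U *ᵥ v) h2
      simp only [Matrix.mulVec_smul] at h3
      rw [← h3, Matrix.mulVec_mulVec, Matrix.mulVec_mulVec]
      congr 1
      calc x * U = (U * Uᴴ) * x * U := by rw [hUU', one_mul]
        _ = _ := by noncomm_ring) (Uᴴ * y * U)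
  rw [hM', hback] at key
  exact key

end MH
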