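import Pool.Agent.Helper55.UT.GalT

/-!
Project UV (MP_b8862a_ag): three Hodge numbers `s, h, s`, `s` an odd prime number.
-/

set_option linter.unusedSectionVars false

open Matrix

namespace MH

/-- The exceptional numbers `h` for an odd prime number `s`: `2 s`, `s² - 2 s`, `(s² - s + 2) / 2`, `s²`, and `8` if
`s = 3`. -/
def Exc55 (s h : ℕ) : Prop :=
  h = 2 * s ∨ h = s ^ 2 - 2 * s ∨ 2 * h + s = s ^ 2 + 2 ∨ h = s ^ 2 ∨ (s = 3 ∧ h = 8)

variable {n : Type*} [Fintype n] [DecidableEq n]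
variable {w : ℤ} {Q : Matrix n n ℚ} {S : Finset ℤ} {P : ℤ → Matrix n n ℂ}

namespace IsHW

/-- three Hodge numbers add up to the dimension -/
lemma card_three55 (H : IsHW w Q S P) {a b c : ℤ} (hab : b ≠ a) (hac : c ≠ a) (hbc : b ≠ c)
    (hP : ∀ p, p ≠ a → p ≠ c → p ≠ b → P p = 0) :
    Fintype.card n = (P a).rank + (P c).rank + (P b).rank := by
  have hPP : ∀ p, P p * P p = P p := fun p => by rw [H.mul, if_pos rfl]
  have h1 : ∑ p ∈ S, P p = P a + P c + P b := by
    have e1 : ∀ p, P p = (if p = a then P a else 0) + (if p = c then P c else 0) + (if p = b then P b else 0) := by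
      intro p
      by_cases p1 : p = a
      · subst p1
        rw [if_pos rfl, if_neg hac.symm, if_neg hab.symm, add_zero, add_zero]
      by_cases p2 : p = c
      · subst p2
        rw [if_neg p1, if_pos rfl, if_neg hbc.symm, add_zero, zero_add]
      by_cases p3 : p = b
      · subst p3
        rw [if_neg p1, if_neg p2, if_pos rfl, zero_add, zero_add]
      · rw [if_neg p1, if_neg p2, if_neg p3, hP p p1 p2 p3, add_zero, add_zero]
    have e2 : ∀ q, ∑ p ∈ S, (if p = q then P q else 0) = P q := by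
      intro q
      rw [Finset.sum_ite_eq' S q]
      split_ifs with m1
      · rfl
      · exact (H.supp q m1).symm
    rw [Finset.sum_congr rfl fun p _ => e1 p, Finset.sum_add_distrib, Finset.sum_add_distrib, e2, e2, e2]
  have h2 := congrArg Matrix.trace (H.sum)
  rw [h1, trace_add, trace_add, ← rank_eq_trace (hPP a), ← rank_eq_trace (hPP b), ← rank_eq_trace (hPP c),
    trace_one] at h2
  exact_mod_cast h2.symm

/-- **Three Hodge numbers `s, h, s`, `s` an odd prime number: the Lie algebra.** -/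
theorem prime_LH55 (H : IsHW w Q S P)
    (hEnd : ∀ A : Matrix n n ℚ, (∀ p, toC A * P p = P p * toC A) → ∃ c : ℚ, A = c • (1 : Matrix n n ℚ))
    {a b c : ℤ} (haw : a + b = w) (hcw : 2 * c = w) (hca : c < a) (hP : ∀ p, p ≠ a → p ≠ c → p ≠ b → P p = 0)
    (sp : (P a).rank.Prime) (s2 : (P a).rank ≠ 2) (h0 : (P c).rank ≠ 0) (hx : ¬ Exc55 (P a).rank (P c).rank) :
    ∀ X : Matrix n n ℂ, Xᵀ * toC Q + toC Q * X = 0 → X ∈ LH Q S P := by
  have hbr : (P b).rank = (P a).rank := by
    have e1 := H.rank_refl55 a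
    rwa [show w - a = b by omega] at e1
  have hcard := H.card_three55 (a := a) (b := b) (c := c) (by omega) (by omega) (by omega) hP
  rw [hbr] at hcard
  have hnum : ∀ d k : ℕ, 2 ≤ d → 2 ≤ k → Fintype.card n = d ^ k → (∀ p, d ^ (k - 1) ∣ (P p).rank) → False := by
    intro d k hd hk hcd hdv
    have h1 := (Nat.dvd_prime sp).1 (hdv a)
    rcases h1 with h1 | h1
    · have : 1 < d ^ (k - 1) := Nat.one_lt_pow (by omega) (by omega)
      omega
    · rw [← h1] at sp
      obtain ⟨h2, h3⟩ := sp.pow_eq_iff.1 rfl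
      rw [h3, pow_one] at h1
      have h4 : k = 2 := by omega
      rw [h4, h1] at hcd
      apply hx
      right; left
      omega
  have htop : ∀ p, a < p → P p = 0 := fun p hp => hP p (by omega) (by omega) (by omega)
  rcases H.gapLH55b hEnd hnum haw (by omega) htop (b := b) (c := c) (by omega) hca (fun h3 => h0 (by
      rw [h3, Matrix.rank_zero])) with h3 | h3 | h3
  · exact h3
  · exfalso
    obtain ⟨-, -, h4, -⟩ := h3
    exact s2 ((Nat.Prime.even_iff sp).1 (h4 ⟨c, by omega⟩))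
  · exfalso
    obtain ⟨-, -, h4, -⟩ := h3
    obtain ⟨-, h5⟩ := h4 c hcw.symm hP
    apply hx
    by_cases h6 : (P c).rank = 2 * (P a).rank
    · exact Or.inl h6
    · rcases h5 sp s2 h6 with h7 | h7 | h7
      · exact Or.inr (Or.inr (Or.inr (Or.inl h7)))
      · exact Or.inr (Or.inr (Or.inl h7))
      · exact Or.inr (Or.inr (Or.inr (Or.inr h7)))

end IsHW

namespace IsGalP

variable {Γ : Subgroup (GL n ℂ)} {R : ℤ → Matrix n n ℂ}

/-- **Three Hodge-Tate numbers `s, h, s`, `s` an odd prime number: the Lie algebra of the Galois group.** -/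
theorem prime_LG55 (H : IsHW w Q S P) (G : IsGalP w Q S P Γ R) (hirr : VIrr Γ)
    {a b c : ℤ} (haw : a + b = w) (hcw : 2 * c = w) (hca : c < a) (hP : ∀ p, p ≠ a → p ≠ c → p ≠ b → P p = 0)
    (sp : (P a).rank.Prime) (s2 : (P a).rank ≠ 2) (hsh : ¬ (P a).rank ∣ (P c).rank)
    (hx : ¬ Exc55 (P a).rank (P c).rank) :
    ∀ X : Matrix n n ℂ, Xᵀ * toC Q + toC Q * X = 0 → X ∈ LG Γ := by
  have hgcd : ∀ d : ℕ, (∀ p, d ∣ (P p).rank) → d = 1 := by
    intro d hd
    rcases (Nat.dvd_prime sp).1 (hd a) with h1 | h1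
    · exact h1
    · exact absurd (h1 ▸ hd c) hsh
  have htop : ∀ p, a < p → P p = 0 := fun p hp => hP p (by omega) (by omega) (by omega)
  have h0 : P c ≠ 0 := by
    intro h3
    apply hsh
    rw [h3, Matrix.rank_zero]
    exact dvd_zero _
  rcases G.gap55b H hirr hgcd haw (b := b) (by omega) htop (c := c) (by omega) hca h0 with h3 | h3 | h3
  · exact h3
  · exfalso
    obtain ⟨-, -, h4, -⟩ := h3
    exact s2 ((Nat.Prime.even_iff sp).1 (h4 ⟨c, by omega⟩))
  · exfalso
    obtain ⟨-, -, h4, -⟩ := h3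
    obtain ⟨-, h5⟩ := h4 c hcw.symm hP
    apply hx
    by_cases h6 : (P c).rank = 2 * (P a).rank
    · exact Or.inl h6
    · rcases h5 sp s2 h6 with h7 | h7 | h7
      · exact Or.inr (Or.inr (Or.inr (Or.inl h7)))
      · exact Or.inr (Or.inr (Or.inl h7))
      · exact Or.inr (Or.inr (Or.inr (Or.inr h7)))

end IsGalP

end MH
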