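import Pool.Agent.Helper55.UV.Blk2
import Pool.Agent.Helper55.UV.GlTwo
import Pool.Agent.Helper34.TR.Asm
import Pool.Agent.Helper67.TR.Cmp

/-!
Project UV (MP_b8862a_ag): three eigenvalues `1, 0, -1` of multiplicities `2, k, 2`, `k ≤ 2`, symmetric form: `L`
contains all skew matrices.
-/

set_option linter.unusedSectionVars false

open Matrix

namespace MH

theorem skew_comm55 {k : ℕ} (hk : k ≤ 2) {z z' : Matrix (Fin k) (Fin k) ℂ} (hz : zᵀ = -z) (hz' : z'ᵀ = -z') :
    z * z' = z' * z := by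
  have h1 : ∀ i j, z j i = -z i j := fun i j => congrFun (congrFun hz i) j
  have h2 : ∀ i j, z' j i = -z' i j := fun i j => congrFun (congrFun hz' i) j
  have h3 : ∀ i, z i i = 0 := fun i => self_eq_neg.1 (h1 i i)
  have h4 : ∀ i, z' i i = 0 := fun i => self_eq_neg.1 (h2 i i)
  interval_cases k
  · exact Subsingleton.elim _ _
  · ext i j
    rw [Subsingleton.elim i 0, Subsingleton.elim j 0, Matrix.mul_apply, Matrix.mul_apply]
    simp [h3]
  · have a1 := h1 0 1
    have a2 := h2 0 1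
    ext i j
    fin_cases i <;> fin_cases j <;> simp [Matrix.mul_apply, Fin.sum_univ_two, h3, h4, a1, a2] <;> ring

variable {n : Type*} [Fintype n] [DecidableEq n]
variable {h : Matrix n n ℂ} {E : ℝ → Matrix n n ℂ} {Λ : Finset ℝ}
variable {τ : Matrix n n ℂ →ₗ[ℂ] Matrix n n ℂ} {L : Submodule ℂ (Matrix n n ℂ)}

namespace Dat

variable (D : Dat τ L h E Λ)
include D

/-- skew matrices on a quadratic space of dimension at most two commute -/
theorem mid_comm55 {G Gi : Matrix n n ℂ} (hG1 : Gi * G = 1) (hGs : Gᵀ = G) (hτ : ∀ x, τ x = Gi * xᵀ * G)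
    (hr : (E 0).rank ≤ 2) {a b : Matrix n n ℂ} (ha : E 0 * a = a) (ha' : a * E 0 = a) (hat : τ a = -a)
    (hb : E 0 * b = b) (hb' : b * E 0 = b) (hbt : τ b = -b) : a * b = b * a := by
  classical
  have hEE : ∀ μ, E μ * E μ = E μ := fun μ => by rw [D.spec.mul, if_pos rfl]
  have hG2 : G * Gi = 1 := mul_eq_one_comm.1 hG1
  have hGd : G.det ≠ 0 := by
    intro h0
    have h1 := congrArg Matrix.det hG2
    rw [Matrix.det_mul, h0, zero_mul, Matrix.det_one] at h1
    exact zero_ne_one h1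
  have hsk : ∀ x, τ x = -x → xᵀ * G = -(G * x) := by
    intro x hx
    rw [hτ] at hx
    calc xᵀ * G = G * (Gi * xᵀ * G) := by simp only [← mul_assoc]; rw [hG2, one_mul]
      _ = _ := by rw [hx, mul_neg]
  have hadj : (E 0)ᵀ * G = G * E 0 := by
    have h1 := D.tauE0
    rw [hτ] at h1
    have h2 : G * (Gi * (E 0)ᵀ * G) = G * E 0 := congrArg (fun y => G * y) h1
    rwa [← mul_assoc, ← mul_assoc, hG2, one_mul] at h2
  obtain ⟨W, hW1, hW2⟩ := MH.exists_orth hGs hGd (hEE 0) hadj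
  have hz : ∀ x, τ x = -x → (Wᵀ * G * x * W)ᵀ = -(Wᵀ * G * x * W) := by
    intro x hx
    rw [Matrix.transpose_mul, Matrix.transpose_mul, Matrix.transpose_mul, Matrix.transpose_transpose, hGs]
    calc Wᵀ * (xᵀ * (G * W)) = Wᵀ * (xᵀ * G) * W := by simp only [Matrix.mul_assoc]
      _ = _ := by rw [hsk x hx]; simp only [Matrix.mul_assoc, Matrix.mul_neg, Matrix.neg_mul]
  have hback : ∀ x, E 0 * x = x → x * E 0 = x → W * (Wᵀ * G * x * W) * (Wᵀ * G) = x := by
    intro x h1 h2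
    calc W * (Wᵀ * G * x * W) * (Wᵀ * G) = (W * (Wᵀ * G)) * x * (W * (Wᵀ * G)) := by simp only [Matrix.mul_assoc]
      _ = x := by rw [hW2, h1, h2]
  have hprod : ∀ x y, E 0 * x = x → x * E 0 = x → E 0 * y = y → y * E 0 = y →
      x * y = W * ((Wᵀ * G * x * W) * (Wᵀ * G * y * W)) * (Wᵀ * G) := by
    intro x y h1 h2 h3 h4
    conv_lhs => rw [← hback x h1 h2, ← hback y h3 h4]
    calc W * (Wᵀ * G * x * W) * (Wᵀ * G) * (W * (Wᵀ * G * y * W) * (Wᵀ * G)) =
        W * (Wᵀ * G * x * W) * (Wᵀ * G * W) * (Wᵀ * G * y * W) * (Wᵀ * G) := by simp only [Matrix.mul_assoc]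
      _ = _ := by rw [hW1, Matrix.mul_one]; simp only [Matrix.mul_assoc]
  rw [hprod a b ha ha' hb hb', hprod b a hb hb' ha ha', skew_comm55 hr (hz a hat) (hz b hbt)]

/-- **The block `(1, 1)`**, if its rank is two and the brackets of degree zero vanish on the middle eigenspace. -/
theorem SS_two55 (T : Three27 E) (hr : (E 1).rank = 2)
    (hmid : ∀ x ∈ Ld L h 0, ∀ y ∈ Ld L h 0, E 0 * (x * y - y * x) = 0) : SS55 τ L E 1 1 := by
  classical
  have hEE : ∀ μ, E μ * E μ = E μ := fun μ => by rw [D.spec.mul, if_pos rfl]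
  obtain ⟨U, hU, hUU⟩ : ∃ U : Matrix n (Fin 2) ℂ, Uᴴ * U = 1 ∧ U * Uᴴ = E 1 := by
    have h1 := exists_onbE (hEE 1) (D.spec.star 1)
    rwa [hr] at h1
  have hEU : E 1 * U = U := by rw [← hUU, Matrix.mul_assoc, hU, Matrix.mul_one]
  have hUE : Uᴴ * E 1 = Uᴴ := by rw [← hUU, ← Matrix.mul_assoc, hU, Matrix.one_mul]
  have hcomm : ∀ x ∈ Ld L h 0, E 1 * x = x * E 1 := fun x hx => D.Ld_comm_E98 hx 1
  have h_h : h = E 1 - E (-1) := by
    have e1 : h * (E 1 + E 0 + E (-1)) = h := by rw [D.sum327 T, mul_one]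
    rw [mul_add, mul_add, D.spec.h_mul, D.spec.h_mul, D.spec.h_mul] at e1
    rw [← e1]
    simp
    abel
  have hh0 : h ∈ Ld L h 0 := ⟨D.mem, by simp⟩
  have hpr : ∀ x y, x ∈ Ld L h 0 → y ∈ Ld L h 0 → Uᴴ * (x * y) * U = (Uᴴ * x * U) * (Uᴴ * y * U) := by
    intro x y hx hy
    calc Uᴴ * (x * y) * U = Uᴴ * (x * y) * (E 1 * U) := by rw [hEU]
      _ = Uᴴ * x * (y * E 1) * U := by simp only [Matrix.mul_assoc]
      _ = Uᴴ * x * (U * Uᴴ * y) * U := by rw [← hcomm y hy, hUU]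
      _ = _ := by simp only [Matrix.mul_assoc]
  -- the degree zero part on the top eigenspace is everything
  obtain ⟨M, hM⟩ : ∃ M : Submodule ℂ (Matrix (Fin 2) (Fin 2) ℂ), ∀ z, z ∈ M ↔ ∃ x ∈ Ld L h 0, Uᴴ * x * U = z := by
    refine ⟨{ carrier := {z | ∃ x ∈ Ld L h 0, Uᴴ * x * U = z}
              add_mem' := ?_
              zero_mem' := ⟨0, zero_mem _, by rw [Matrix.mul_zero, Matrix.zero_mul]⟩
              smul_mem' := ?_ }, fun z => Iff.rfl⟩
    · rintro _ _ ⟨x, hx, rfl⟩ ⟨y, hy, rfl⟩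
      exact ⟨x + y, add_mem hx hy, by rw [Matrix.mul_add, Matrix.add_mul]⟩
    · rintro c _ ⟨x, hx, rfl⟩
      exact ⟨c • x, Submodule.smul_mem _ c hx, by rw [Matrix.mul_smul, Matrix.smul_mul]⟩
  have hall : ∀ z, z ∈ M := by
    refine gl_two55 ?_ ?_ ?_ ?_
    · rw [hM]
      refine ⟨h, hh0, ?_⟩
      have e1 : h * U = U := by
        calc h * U = h * (E 1 * U) := by rw [hEU]
          _ = h * E 1 * U := by rw [Matrix.mul_assoc]
          _ = U := by rw [D.spec.h_mul, Complex.ofReal_one, one_smul, hEU]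
      rw [Matrix.mul_assoc, e1, hU]
    · intro a ha b hb
      rw [hM] at ha hb ⊢
      obtain ⟨x, hx, rfl⟩ := ha
      obtain ⟨y, hy, rfl⟩ := hb
      refine ⟨x * y - y * x, ?_, ?_⟩
      · have := Ld_bracket D.br hx hy
        rwa [add_zero] at this
      · rw [Matrix.mul_sub, Matrix.sub_mul, hpr x y hx hy, hpr y x hy hx]
    · intro a ha
      rw [hM] at ha ⊢
      obtain ⟨x, hx, rfl⟩ := ha
      refine ⟨xᴴ, ?_, ?_⟩
      · have := D.Ld_star27 hx
        rwa [neg_zero] at this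
      · rw [conjTranspose_mul, conjTranspose_mul, conjTranspose_conjTranspose, Matrix.mul_assoc]
    · intro v hv
      by_contra hcon
      push Not at hcon
      have hUv : U *ᵥ v ≠ 0 := by
        intro h0
        apply hv
        have h2 := congrArg (fun u => Uᴴ *ᵥ u) h0
        simp only [Matrix.mulVec_mulVec] at h2
        rwa [hU, Matrix.one_mulVec, Matrix.mulVec_zero] at h2
      have key := D.top_irr98 (W₀ := Submodule.span ℂ {U *ᵥ v}) (top27_55 D T) (by
        intro h2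
        apply hUv
        have : U *ᵥ v ∈ Submodule.span ℂ {U *ᵥ v} := Submodule.mem_span_singleton_self _
        rwa [h2, Submodule.mem_bot] at this) (by
        intro w hw
        obtain ⟨c, rfl⟩ := Submodule.mem_span_singleton.1 hw
        rw [mulVec_smul, mulVec_mulVec, hEU]) (by
        intro x hx w hw
        obtain ⟨c, rfl⟩ := Submodule.mem_span_singleton.1 hw
        obtain ⟨c', hc'⟩ := hcon (Uᴴ * x * U) ((hM _).2 ⟨x, hx, rfl⟩)
        have e1 : x *ᵥ (U *ᵥ v) = c' • (U *ᵥ v) := by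
          have e2 := congrArg (fun u => U *ᵥ u) hc'
          simp only [Matrix.mulVec_mulVec, Matrix.mulVec_smul] at e2
          rw [← e2, Matrix.mulVec_mulVec]
          congr 1
          calc x * U = x * (E 1 * U) := by rw [hEU]
            _ = (x * E 1) * U := by rw [Matrix.mul_assoc]
            _ = U * Uᴴ * x * U := by rw [← hcomm x hx, hUU]
            _ = _ := by simp only [Matrix.mul_assoc]
        rw [mulVec_smul, e1]
        exact Submodule.smul_mem _ _ (Submodule.smul_mem _ _ (Submodule.mem_span_singleton_self _)))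
      have h2 := rank_le_span55 (A := E 1) (s := {U *ᵥ v}) (by
        intro u
        rw [Finset.coe_singleton]
        exact key u)
      rw [Finset.card_singleton] at h2
      omega
  -- the block
  obtain ⟨N, hN⟩ : ∃ N : Submodule ℂ (Matrix (Fin 2) (Fin 2) ℂ), ∀ z, z ∈ N ↔ U * z * Uᴴ - τ (U * z * Uᴴ) ∈ L := by
    refine ⟨{ carrier := {z | U * z * Uᴴ - τ (U * z * Uᴴ) ∈ L}
              add_mem' := fun {a b} ha hb => ?_
              zero_mem' := ?_
              smul_mem' := fun c a ha => ?_ }, fun z => Iff.rfl⟩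
    · have e1 : U * (a + b) * Uᴴ - τ (U * (a + b) * Uᴴ) =
          (U * a * Uᴴ - τ (U * a * Uᴴ)) + (U * b * Uᴴ - τ (U * b * Uᴴ)) := by
        rw [Matrix.mul_add, Matrix.add_mul, map_add]
        abel
      change U * (a + b) * Uᴴ - τ (U * (a + b) * Uᴴ) ∈ L
      rw [e1]
      exact add_mem ha hb
    · change U * 0 * Uᴴ - τ (U * 0 * Uᴴ) ∈ L
      rw [Matrix.mul_zero, Matrix.zero_mul, map_zero, sub_zero]
      exact zero_mem _
    · change U * (c • a) * Uᴴ - τ (U * (c • a) * Uᴴ) ∈ L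
      rw [Matrix.mul_smul, Matrix.smul_mul, map_smul, ← smul_sub]
      exact L.smul_mem c ha
  have hbrN : ∀ a b : Matrix (Fin 2) (Fin 2) ℂ, a * b - b * a ∈ N := by
    intro a b
    obtain ⟨x, hx, hxa⟩ := (hM _).1 (hall a)
    obtain ⟨y, hy, hyb⟩ := (hM _).1 (hall b)
    have hw : x * y - y * x ∈ Ld L h 0 := by
      have := Ld_bracket D.br hx hy
      rwa [add_zero] at this
    have h0 := hmid x hx y hy
    have e1 : U * (a * b - b * a) * Uᴴ = E 1 * (x * y - y * x) := by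
      rw [← hxa, ← hyb, ← hpr x y hx hy, ← hpr y x hy hx, ← Matrix.sub_mul, ← Matrix.mul_sub]
      calc U * (Uᴴ * (x * y - y * x) * U) * Uᴴ = (U * Uᴴ) * (x * y - y * x) * (U * Uᴴ) := by
            simp only [Matrix.mul_assoc]
        _ = E 1 * (x * y - y * x) := by rw [hUU, mul_assoc, ← hcomm _ hw, ← mul_assoc, hEE]
    rw [hN, e1, D.inv.mul, D.sk _ hw.1, D.tauE, neg_mul, ← D.Ld_comm_E98 hw (-1), sub_neg_eq_add]
    have e2 : E 1 * (x * y - y * x) + E (-1) * (x * y - y * x) = x * y - y * x := by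
      calc E 1 * (x * y - y * x) + E (-1) * (x * y - y * x) =
          (E 1 + E 0 + E (-1)) * (x * y - y * x) - E 0 * (x * y - y * x) := by
            rw [add_mul, add_mul]
            abel
        _ = _ := by rw [D.sum327 T, one_mul, h0, sub_zero]
    rw [e2]
    exact hw.1
  have honeN : (1 : Matrix (Fin 2) (Fin 2) ℂ) ∈ N := by
    rw [hN, Matrix.mul_one, hUU, D.tauE, ← h_h]
    exact D.mem
  intro Y y1 y2
  have hY : U * (Uᴴ * Y * U) * Uᴴ = Y := by
    calc U * (Uᴴ * Y * U) * Uᴴ = (U * Uᴴ) * Y * (U * Uᴴ) := by simp only [Matrix.mul_assoc]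
      _ = Y := by rw [hUU, y1, y2]
  have hmem : Uᴴ * Y * U ∈ N := by
    obtain ⟨p, q, r, s, he⟩ : ∃ p q r s : ℂ, Uᴴ * Y * U = !![p, q; r, s] := ⟨_, _, _, _, Matrix.eta_fin_two _⟩
    have e1 : (!![p, q; r, s] : Matrix (Fin 2) (Fin 2) ℂ) = ((p + s) / 2) • (1 : Matrix (Fin 2) (Fin 2) ℂ) +
        ((p - s) / 2) • (!![0, 1; 0, 0] * !![0, 0; 1, 0] - !![0, 0; 1, 0] * !![0, 1; 0, 0]) +
        q • (!![1, 0; 0, 0] * !![0, 1; 0, 0] - !![0, 1; 0, 0] * !![1, 0; 0, 0]) +
        r • (!![0, 0; 1, 0] * !![1, 0; 0, 0] - !![1, 0; 0, 0] * !![0, 0; 1, 0]) := by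
      simp only [Matrix.mul_fin_two]
      ext i j
      fin_cases i <;> fin_cases j <;> simp <;> ring
    rw [he, e1]
    exact add_mem (add_mem (add_mem (N.smul_mem _ honeN) (N.smul_mem _ (hbrN _ _))) (N.smul_mem _ (hbrN _ _)))
      (N.smul_mem _ (hbrN _ _))
  rw [hN, hY] at hmem
  exact hmem

/-- **Multiplicities `2, k, 2`, `k ≤ 2`.** -/
theorem two_full55 {G Gi : Matrix n n ℂ} (hG1 : Gi * G = 1) (hGs : Gᵀ = G) (hτ : ∀ x, τ x = Gi * xᵀ * G)
    (T : Three27 E) (hr : (E 1).rank = 2) (h0 : E 0 ≠ 0) (hr0 : (E 0).rank ≤ 2) {X : Matrix n n ℂ} (hX : τ X = -X) :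
    X ∈ L := by
  have hEE : ∀ μ, E μ * E μ = E μ := fun μ => by rw [D.spec.mul, if_pos rfl]
  have h1 : E 1 ≠ 0 := by
    intro h1
    rw [h1, Matrix.rank_zero] at hr
    omega
  refine D.full_top55 T h0 h1 (D.SS_two55 T hr fun x hx y hy => ?_) hX
  have cx := D.Ld_comm_E98 hx 0
  have cy := D.Ld_comm_E98 hy 0
  have hs : ∀ x ∈ Ld L h 0, τ (E 0 * x) = -(E 0 * x) := by
    intro x hx
    rw [D.inv.mul, D.tauE0, D.sk x hx.1, neg_mul, ← D.Ld_comm_E98 hx 0]
  have key := D.mid_comm55 hG1 hGs hτ hr0 (a := E 0 * x) (b := E 0 * y) (by rw [← mul_assoc, hEE])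
    (by rw [mul_assoc, ← cx, ← mul_assoc, hEE]) (hs x hx) (by rw [← mul_assoc, hEE])
    (by rw [mul_assoc, ← cy, ← mul_assoc, hEE]) (hs y hy)
  have e1 : ∀ x y, x * E 0 = E 0 * x → E 0 * x * (E 0 * y) = E 0 * (x * y) := by
    intro x y hc
    calc E 0 * x * (E 0 * y) = E 0 * (x * E 0) * y := by simp only [mul_assoc]
      _ = (E 0 * E 0) * x * y := by rw [hc]; simp only [mul_assoc]
      _ = _ := by rw [hEE, mul_assoc]
  rw [e1 x y cx.symm, e1 y x cy.symm] at key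
  rw [mul_sub, key, sub_self]

end Dat

end MH
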